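import Pool.Agent.MP_3ee8cb_gt.SL.Liou

namespace Pool.Agent.MP_3ee8cb_gt.SL3

open Pool.Agent.MP_3ee8cb_gt.SL

variable {n : ℕ}

/-- The metric and the maps of the group action are smooth. -/
structure Smooth (g : Met n) (Γ : Type) [Group Γ] [MulAction Γ (E n)] : Prop where
  met : ∀ (k : ℕ) (u v : E n), ContDiff ℝ k fun x => g x u v
  act : ∀ (k : ℕ) (γ : Γ), ContDiff ℝ k fun x : E n => γ • x

/-- All sectional curvatures of `h` lie in `[-b ^ 2, -a ^ 2]`, where `b ^ 2 < k * a ^ 2`. -/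
def Pinched (h : Met n) (k : ℝ) : Prop := ∃ a b : ℝ, 0 < a ∧ b ^ 2 < k * a ^ 2 ∧
  ∃ C, IsChr h C ∧ ∀ x u v,
    -b ^ 2 * (h x u u * h x v v - h x u v ^ 2) ≤ h x (Rm C x u v v) u ∧
      h x (Rm C x u v v) u ≤ -a ^ 2 * (h x u u * h x v v - h x u v ^ 2)

/-- `f` is of class `C¹`: near every unit vector it lifts to a map of class `C¹`. -/
def C1Q {g h : Met n} {Γ Λ : Type} [Group Γ] [Group Λ] [MulAction Γ (E n)] [MulAction Λ (E n)]
    (f : UM g Γ → UM h Λ) : Prop :=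
  ∀ p : UT g, ∃ φ : E n × E n → E n × E n, ContDiffAt ℝ 1 φ p.1 ∧
    ∀ᶠ q in nhds p, ∃ w : UT h, w.1 = φ q.1 ∧ f (Quot.mk _ q) = Quot.mk _ w

/-- The homeomorphism `f` and its inverse are of class `C¹`. -/
def C1D {g h : Met n} {Γ Λ : Type} [Group Γ] [Group Λ] [MulAction Γ (E n)] [MulAction Λ (E n)]
    (f : UM g Γ ≃ₜ UM h Λ) : Prop := C1Q f ∧ C1Q f.symm

/-- The quotient manifolds are isometric: an equivariant isometry of the universal covers. -/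
def Isometric (g h : Met n) (Γ Λ : Type) [Group Γ] [Group Λ] [MulAction Γ (E n)]
    [MulAction Λ (E n)] : Prop :=
  ∃ (F : E n → E n) (ρ : Γ ≃* Λ), Function.Bijective F ∧ ContDiff ℝ 1 F ∧
    (∀ x u v, h (F x) (dE F x u) (dE F x v) = g x u v) ∧
      ∀ (γ : Γ) (x : E n), F (γ • x) = ρ γ • F x

end Pool.Agent.MP_3ee8cb_gt.SL3
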