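import Pool.Agent.MP_3ee8cb_gt.SL.Liou

namespace Pool.Agent.MP_3ee8cb_gt.SL3

open Pool.Agent.MP_3ee8cb_gt.SL

variable {n : ℕ}

/-- Rank one: along some geodesic every parallel Jacobi field is a multiple of the velocity. -/
def RankOne (h : Met n) (Ψ : ℝ → UT h → UT h) : Prop := ∃ C, IsChr h C ∧ ∃ p : UT h,
  ∀ X : ℝ → E n, (∀ t, HasDerivAt X (-(C (Ψ t p).1.1 (Ψ t p).1.2 (X t))) t) →
    (∀ t, Rm C (Ψ t p).1.1 (X t) (Ψ t p).1.2 (Ψ t p).1.2 = 0) → ∃ r : ℝ, X 0 = r • p.1.2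

end Pool.Agent.MP_3ee8cb_gt.SL3
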