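import Pool.Agent.MP_3ee8cb_gt.SL.Liou

namespace Pool.Agent.MP_3ee8cb_gt.SL3

open Pool.Agent.MP_3ee8cb_gt.SL

variable {n : ℕ}

/-- All sectional curvatures of `h` are negative. -/
def Negative (h : Met n) : Prop := ∃ C, IsChr h C ∧ ∀ x u v,
  h x u v ^ 2 < h x u u * h x v v → h x (Rm C x u v v) u < 0

end Pool.Agent.MP_3ee8cb_gt.SL3
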