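import Pool.Agent.MP_3ee8cb_gt.D3.Top

/-! On a closed manifold the curvature is bounded from below. -/

namespace Pool.Agent.MP_3ee8cb_gt.SL3

open D3 Set
open scoped RealInnerProductSpace

variable {m : MF} {Γ : Type} [Group Γ] [MulAction Γ V] {O : Γ → V → V ≃ₗᵢ[ℝ] V}

theorem low_der (o : m.OK) (j : m.Jac) (z ξ : V × V) :
    HasDerivAt (fun t => ⟪m.J' z ξ t, m.J z ξ t⟫)
      (⟪m.ver z ξ, m.ver z ξ⟫ - ⟪m.K z.1 (m.hor z ξ) z.2 z.2, m.hor z ξ⟫) 0 := by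
  have e : m.Z 0 = id := funext o.zero
  have h := (j.d2 z ξ 0).inner ℝ (j.d1 z ξ 0)
  have s := o.skew (m.Z 0 z).1 (m.R (m.Z 0 z).1 (m.Z 0 z).2) (m.J' z ξ 0) (m.J z ξ 0)
  refine h.congr_deriv ?_
  rw [inner_sub_right, inner_sub_left, inner_neg_left]
  unfold MF.w
  rw [s]
  simp only [MF.J, MF.J', e, fderiv_id, id, ContinuousLinearMap.id_apply]
  ring

theorem low_inv (o : m.OK) (j : m.Jac) (A : Act m Γ O) (γ : Γ) (y a b : V) :
    ⟪m.K (γ • y) (O γ y a) (O γ y b) (O γ y b), O γ y a⟫ = ⟪m.K y a b b, a⟫ := by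
  obtain ⟨T, hT⟩ : ∃ T : V × V → V × V, T = fun z => (γ • z.1, O γ z.1 z.2) := ⟨_, rfl⟩
  have dT : Differentiable ℝ T := hT ▸ (A.c1 γ).differentiable one_ne_zero
  have dZ : ∀ t, Differentiable ℝ (m.Z t) := fun t =>
    (o.cZ.comp (contDiff_const.prodMk contDiff_id)).differentiable one_ne_zero
  have fl : ∀ t, m.Z t ∘ T = T ∘ m.Z t := fun t => funext fun z => by
    rw [hT]; exact A.flow γ t z
  have hh : ∀ z ξ, m.hor (T z) (fderiv ℝ T z ξ) = O γ z.1 (m.hor z ξ) := hT ▸ A.hor γ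
  have hv : ∀ z ξ, m.ver (T z) (fderiv ℝ T z ξ) = O γ z.1 (m.ver z ξ) := hT ▸ A.ver γ
  have ch : ∀ t z ξ, fderiv ℝ (m.Z t) (T z) (fderiv ℝ T z ξ) =
      fderiv ℝ T (m.Z t z) (fderiv ℝ (m.Z t) z ξ) := fun t z ξ => by
    have h1 := fderiv_comp z (dZ t (T z)) (dT z)
    rw [fl, fderiv_comp z (dT _) (dZ t z)] at h1
    exact (DFunLike.congr_fun h1 ξ).symm
  have e : ∀ z ξ t, ⟪m.J' (T z) (fderiv ℝ T z ξ) t, m.J (T z) (fderiv ℝ T z ξ) t⟫ =
      ⟪m.J' z ξ t, m.J z ξ t⟫ := fun z ξ t => by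
    have : m.Z t (T z) = T (m.Z t z) := congrFun (fl t) z
    unfold MF.J MF.J'
    rw [ch, this, hh, hv, LinearIsometryEquiv.inner_map_map]
  have h1 := low_der o j (T (y, b)) (fderiv ℝ T (y, b) (m.R y a, 0))
  simp only [e] at h1
  have h2 := h1.unique (low_der o j (y, b) (m.R y a, 0))
  have h3 : m.hor (y, b) (m.R y a, 0) = a := o.SR y a
  rw [hh, hv, LinearIsometryEquiv.inner_map_map, h3, hT] at h2
  simpa using h2

theorem low_dn (o : m.OK) (j : m.Jac) (A : Act m Γ O) : ∃ hi, m.Dn hi := by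
  obtain ⟨K, cK, hK⟩ := A.cpt
  have c : Continuous fun q : V × V × V => -⟪m.K q.1 q.2.1 q.2.2 q.2.2, q.2.1⟫ :=
    ((j.cK.comp (f := fun q : V × V × V => (q.1, q.2.1, q.2.2, q.2.2)) (by fun_prop)).inner
      (by fun_prop)).neg
  obtain ⟨C, hC⟩ := (cK.prod ((isCompact_sphere (0 : V) 1).prod
    (isCompact_sphere (0 : V) 1))).bddAbove_image c.continuousOn
  have u : ∀ y a b, ‖a‖ = 1 → ‖b‖ = 1 → -⟪m.K y a b b, a⟫ ≤ C := fun y a b ha hb => by
    obtain ⟨γ, hγ⟩ := hK y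
    rw [← low_inv o j A γ]
    exact hC ⟨(γ • y, O γ y a, O γ y b), ⟨hγ, by simpa using ha, by simpa using hb⟩, rfl⟩
  have v : ∀ y a b, -⟪m.K y a b b, a⟫ ≤ C * (‖a‖ ^ 2 * ‖b‖ ^ 2) := fun y a b => by
    obtain ⟨L, hL⟩ := j.lK y
    by_cases ha : a = 0
    · simp [ha]
    by_cases hb : b = 0
    · simp [hb, hL]
    have p := norm_pos_iff.2 ha
    have q := norm_pos_iff.2 hb
    have := u y (‖a‖⁻¹ • a) (‖b‖⁻¹ • b) (norm_smul_inv_norm ha) (norm_smul_inv_norm hb)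
    simp only [hL, map_smul, smul_apply, real_inner_smul_left,
      real_inner_smul_right] at this ⊢
    have h2 := mul_le_mul_of_nonneg_right this (by positivity : 0 ≤ ‖a‖ ^ 2 * ‖b‖ ^ 2)
    refine le_of_eq_of_le ?_ h2
    field_simp
  refine ⟨C, fun y a b => ?_⟩
  obtain ⟨L, hL⟩ := j.lK y
  by_cases hb : b = 0
  · simp [hb, hL]
  have q := norm_pos_iff.2 hb
  have h0 : L b b b = 0 := by
    have := j.aK y b b b
    rw [hL] at this
    linear_combination (norm := module) (1 / 2 : ℝ) • this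
  have h1 : ⟪L a b b, b⟫ = 0 := by
    have := j.sK y a b b b
    rw [hL, real_inner_comm] at this
    rw [real_inner_comm]
    linarith [real_inner_comm (L a b b) b]
  have := v y (a - (⟪a, b⟫ / ‖b‖ ^ 2) • b) b
  rw [norm_sub_sq_real] at this
  simp only [hL, map_sub, map_smul, sub_apply, h0, smul_zero, sub_zero,
    smul_apply, inner_sub_right, real_inner_smul_right, h1, mul_zero,
    norm_smul, mul_pow, Real.norm_eq_abs, sq_abs] at this ⊢
  refine this.trans (le_of_eq ?_)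
  field_simp
  ring

theorem low_pin (jac : SJAC) (frm : SFRM) (act : SACT) {h : CR.Met 3}
    {Ψ : ℝ → CR.UT h → CR.UT h} (q : LV.QP h Γ Ψ) (d : D2 Γ) {a : ℝ} (k : TB.CurvLe h a) :
    ∃ C hi, TB.IsChr h C ∧ Pin h C (a ^ 2) hi := by
  obtain ⟨C, c, k⟩ := k
  obtain ⟨m, o, l⟩ := frm h C Γ Ψ q c
  obtain ⟨O, A⟩ := act h C Γ Ψ q c m o l d
  obtain ⟨hi, H⟩ := low_dn o (jac m o) A
  refine ⟨C, hi, c, fun x u v => ⟨?_, k x u v⟩⟩
  have := H x (m.S x u) (m.S x v)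
  rw [(l.sec o x _ _).1, ← (l.sec o x _ _).2, o.RS, o.RS] at this
  linarith

end Pool.Agent.MP_3ee8cb_gt.SL3
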