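import Pool.Agent.MP_3ee8cb_gt.SL3.Link
import Pool.Agent.MP_3ee8cb_gt.SL3.Low
import Pool.Agent.MP_3ee8cb_gt.D3NP.Spec

/-! The statements without pinching of the target. -/

namespace Pool.Agent.MP_3ee8cb_gt.SL3

open Pool.Agent.MP_3ee8cb_gt.SL
open scoped ContDiff

/-- A statement about a conjugacy of geodesic flows of smooth closed manifolds. -/
def OnT (P : ∀ (g h : Met 3) (Γ Λ : Type) [Group Γ] [Group Λ] [MulAction Γ (E 3)]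
    [MulAction Λ (E 3)] (_ : UM g Γ ≃ₜ UM h Λ), Prop) : Prop :=
  ∀ (g h : Met 3) (Γ Λ : Type) [Group Γ] [Group Λ] [MulAction Γ (E 3)] [MulAction Λ (E 3)]
    (Φ : ℝ → UT g → UT g) (Ψ : ℝ → UT h → UT h) (f : UM g Γ ≃ₜ UM h Λ), Riem g → Riem h →
    Deck g Γ → Deck h Λ → Smooth g Γ → Smooth h Λ → IsFlow g Φ → IsFlow h Ψ → Conj Φ Ψ f →
    P g h Γ Λ f → Isometric g h Γ Λ

variable {Q : CR.Met 3 → Prop}

theorem link_A2 (jac : D3.SJAC) (frm : D3.SFRM) (act : D3.SACT) (A : D3NP.MainA2 Q)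
    (hQ : ∀ h : CR.Met 3, ContDiff ℝ ∞ h → Q h) (a : ℝ) (ha : 0 < a) :
    D3IN.On3 fun g h _ _ _ _ _ _ ρ F => TB.CurvLe g 0 → TB.CurvLe h a → D3IN.C1F F →
      D3IN.C1F F.symm → D3IN.Iso g h ρ := by
  intro g h Γ Λ _ _ _ _ Φ Ψ ρ F sg sh cj k0 k c1 c2
  obtain ⟨C, c, -⟩ := id k0
  have d : D3.D2 Λ := fun γ => contDiff_infty.1 (sh.act γ) 2
  obtain ⟨C', hi, c', K⟩ := low_pin jac frm act sh.qp d k
  exact A g h C C' Γ Λ Φ Ψ ρ F sg.qp sh.qp c c' (fun γ => contDiff_infty.1 (sg.act γ) 2) d cj a hi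
    ha (hQ h sh.sm) k0 K c1 c2

theorem finA2 (jac : D3.SJAC) (frm : D3.SFRM) (act : D3.SACT) (A : D3NP.MainA2 Q)
    (hQ : ∀ h : CR.Met 3, ContDiff ℝ ∞ h → Q h) (a : ℝ) (ha : 0 < a) :
    OnT fun g h _ _ _ _ _ _ f => CurvLe h a ∧ CurvLe g 0 ∧ C1D f := by
  intro g h Γ Λ _ _ _ _ Φ Ψ f hg hh dg dh sg sh fg fh hf ⟨k, k0, c1, c2⟩
  obtain ⟨g, rfl, rg⟩ := link_riem hg
  obtain ⟨h, rfl, rh⟩ := link_riem hh
  have qg := LV.all_qp (by norm_num) rg (link_deck dg) (link_flow rg fg)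
  have qh := LV.all_qp (by norm_num) rh (link_deck dh) (link_flow rh fh)
  obtain ⟨ρ, F, cj, hF⟩ := LV.lift2 3 g h Γ Λ Φ Ψ f le_rfl qg.rp qh.rp hf
  obtain ⟨G, hG⟩ := link_A2 jac frm act A hQ a ha g h Γ Λ Φ Ψ ρ F (link_sm qg sg) (link_sm qh sh)
    cj (link_curv rg k0) (link_curv rh k) (link_c1 (link_deck dh) (sh.act 2) F.continuous hF c1)
    (link_c1 (link_deck dg) (sg.act 2) F.symm.continuous (fun w => by
      rw [Homeomorph.symm_apply_eq]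
      exact ((hF _).trans (by rw [F.apply_symm_apply]; rfl)).symm) c2)
  exact ⟨G, ρ, hG⟩

theorem finB2 (jac : D3.SJAC) (frm : D3.SFRM) (act : D3.SACT) (A : D3NP.MainA2 Q)
    (hQ : ∀ h : CR.Met 3, ContDiff ℝ ∞ h → Q h) (B : ∀ a, 0 < a → D3IN.PartB a) :
    OnT fun g h _ _ _ _ _ _ _ => Pinched h 4 ∧ Pinched g 4 := by
  intro g h Γ Λ _ _ _ _ Φ Ψ f hg hh dg dh sg sh fg fh hf ⟨hN, hM⟩
  obtain ⟨g, rfl, rg⟩ := link_riem hg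
  obtain ⟨h, rfl, rh⟩ := link_riem hh
  have qg := LV.all_qp (by norm_num) rg (link_deck dg) (link_flow rg fg)
  have qh := LV.all_qp (by norm_num) rh (link_deck dh) (link_flow rh fh)
  obtain ⟨ρ, F, cj, -⟩ := LV.lift2 3 g h Γ Λ Φ Ψ f le_rfl qg.rp qh.rp hf
  obtain ⟨a, b, ha, hb, K⟩ := link_pin rh hN
  obtain ⟨a', b', ha', hb', K'⟩ := link_pin rg hM
  obtain ⟨G, hG⟩ := link_A2 jac frm act A hQ a ha g h Γ Λ Φ Ψ ρ F (link_sm qg sg) (link_sm qh sh)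
    cj (link_le0 rg K') (K.imp fun _ k => ⟨k.1, fun x u v => (k.2 x u v).1⟩)
    (B a ha g h Γ Λ Φ Ψ ρ F (link_sm qg sg) (link_sm qh sh) cj b a' b' ha' hb hb' K' K)
    (B a' ha' h g Λ Γ Ψ Φ ρ.symm F.symm (link_sm qh sh) (link_sm qg sg)
      (link_symm (link_deck dg) cj) b' a b ha hb' hb K K')
  exact ⟨G, ρ, hG⟩

end Pool.Agent.MP_3ee8cb_gt.SL3
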