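import Pool.Agent.MP_3ee8cb_gt.SL3.Link2
import Pool.Agent.MP_3ee8cb_gt.SL3.Defs2
import Pool.Agent.MP_3ee8cb_gt.D3RK.Top

/-! The statements in nonpositive curvature. -/

namespace Pool.Agent.MP_3ee8cb_gt.SL3

open Pool.Agent.MP_3ee8cb_gt.SL

theorem link_chr {n : ℕ} {h : CR.Met n} (hh : CR.Riem h) {C : E n → E n → E n → E n}
    {C' : TB.Chr n} (c : IsChr (pl h) C) (c' : TB.IsChr h C') :
    (∀ x u v, C x u v = C' x u v) ∧ ∀ x u v w, Rm C x u v w = TB.Rm C' x u v w := by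
  have e : C = fun x u v => C' x u v := by
    funext x u v
    refine TB.gam_inj hh x ?_
    ext1 w
    have e1 := c x u v w
    rw [link_dR hh, link_dR hh, link_dR hh, ← c' x u v w] at e1
    simp only [pl] at e1
    linarith
  subst e
  refine ⟨fun _ _ _ => rfl, fun x u v w => ?_⟩
  have d : DifferentiableAt ℝ C' x :=
    ((TB.gam n h C' hh c').smooth.differentiable (by norm_num)).differentiableAt
  unfold Rm dE
  rw [TB.gam_fderiv_apply d, TB.gam_fderiv_apply d]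
  rfl

theorem finP {P : ∀ (h : CR.Met 3) (_ : TB.Chr 3) (_ : ℝ → CR.UT h → CR.UT h), Prop}
    (A : D3RK.MainP P) {g h : CR.Met 3} {Γ Λ : Type} [Group Γ] [Group Λ] [MulAction Γ (E 3)]
    [MulAction Λ (E 3)] {Φ : ℝ → UT (pl g) → UT (pl g)} {Ψ : ℝ → UT (pl h) → UT (pl h)}
    {f : UM (pl g) Γ ≃ₜ UM (pl h) Λ} (rg : CR.Riem g) (rh : CR.Riem h) (dg : Deck (pl g) Γ)
    (dh : Deck (pl h) Λ) (sg : Smooth (pl g) Γ) (sh : Smooth (pl h) Λ) (fg : IsFlow (pl g) Φ)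
    (fh : IsFlow (pl h) Ψ) (hf : Conj Φ Ψ f) (k : CurvLe (pl h) 0) (k0 : CurvLe (pl g) 0)
    (c : C1D f) (hP : ∀ C, TB.IsChr h C → P h C Ψ) : Isometric (pl g) (pl h) Γ Λ := by
  have qg := LV.all_qp (by norm_num) rg (link_deck dg) (link_flow rg fg)
  have qh := LV.all_qp (by norm_num) rh (link_deck dh) (link_flow rh fh)
  obtain ⟨ρ, F, cj, hF⟩ := LV.lift2 3 g h Γ Λ Φ Ψ f le_rfl qg.rp qh.rp hf
  obtain ⟨C, cg, -⟩ := link_curv rg k0
  obtain ⟨C', ch, K⟩ := link_curv rh k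
  obtain ⟨G, hG⟩ := A g h C C' Γ Λ Φ Ψ ρ F qg qh cg ch (sg.act 2) (sh.act 2) cj
    (contDiff_infty.1 (link_sm qh sh).sm 3) (link_curv rg k0) (fun x u v => by simpa using K x u v)
    (hP C' ch) (link_c1 (link_deck dh) (sh.act 2) F.continuous hF c.1)
    (link_c1 (link_deck dg) (sg.act 2) F.symm.continuous (fun w => by
      rw [Homeomorph.symm_apply_eq]
      exact ((hF _).trans (by rw [F.apply_symm_apply]; rfl)).symm) c.2)
  exact ⟨G, ρ, hG⟩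

theorem finA3 (A : D3RK.MainP fun _ _ _ => True) :
    OnT fun g h _ _ _ _ _ _ f => CurvLe h 0 ∧ CurvLe g 0 ∧ C1D f := by
  intro g h Γ Λ _ _ _ _ Φ Ψ f hg hh dg dh sg sh fg fh hf ⟨k, k0, c⟩
  obtain ⟨g, rfl, rg⟩ := link_riem hg
  obtain ⟨h, rfl, rh⟩ := link_riem hh
  exact finP A rg rh dg dh sg sh fg fh hf k k0 c fun _ _ => trivial

theorem finR (A : D3RK.MainA0) (g h : Met 3) (Γ Λ : Type) [Group Γ] [Group Λ]
    [MulAction Γ (E 3)] [MulAction Λ (E 3)] (Φ : ℝ → UT g → UT g) (Ψ : ℝ → UT h → UT h)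
    (f : UM g Γ ≃ₜ UM h Λ) (hg : Riem g) (hh : Riem h) (dg : Deck g Γ) (dh : Deck h Λ)
    (sg : Smooth g Γ) (sh : Smooth h Λ) (fg : IsFlow g Φ) (fh : IsFlow h Ψ) (hf : Conj Φ Ψ f)
    (k : CurvLe h 0) (r : RankOne h Ψ) (k0 : CurvLe g 0) (c : C1D f) : Isometric g h Γ Λ := by
  obtain ⟨g, rfl, rg⟩ := link_riem hg
  obtain ⟨h, rfl, rh⟩ := link_riem hh
  refine finP (P := D3RK.Rk1) A rg rh dg dh sg sh fg fh hf k k0 c fun C' c' => ?_
  obtain ⟨C, cc, p, H⟩ := r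
  obtain ⟨e1, e2⟩ := link_chr rh cc c'
  simp only [e1, e2] at H
  exact ⟨p, H⟩

end Pool.Agent.MP_3ee8cb_gt.SL3
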