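import Pool.Agent.MP_3ee8cb_gt.SL3.Link2
import Pool.Agent.MP_3ee8cb_gt.DNB2.Spec

/-! Pinching on one side only. -/

namespace Pool.Agent.MP_3ee8cb_gt.SL3

open Pool.Agent.MP_3ee8cb_gt.SL
open scoped ContDiff

theorem low_pinch (jac : D3.SJAC) (frm : D3.SFRM) (act : D3.SACT) {h : CR.Met 3} {Γ : Type}
    [Group Γ] [MulAction Γ (E 3)] {Ψ : ℝ → CR.UT h → CR.UT h} (q : LV.QP h Γ Ψ) (d : D3.D2 Γ)
    {a : ℝ} (k : TB.CurvLe h a) : ∃ b, D3IN.Pinch h a b := by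
  obtain ⟨C, hi, c, K⟩ := low_pin jac frm act q d k
  refine ⟨√hi, C, c, fun x u v => ⟨(K x u v).2, le_trans ?_ (K x u v).1⟩⟩
  rw [Real.sq_sqrt']
  exact mul_le_mul_of_nonneg_right (neg_le_neg (le_max_left _ _))
    (sub_nonneg.2 (TB.mod_cs q.rp.riem x u v))

theorem finB3 {Q : CR.Met 3 → Prop} (jac : D3.SJAC) (frm : D3.SFRM) (act : D3.SACT)
    (A : D3NP.MainA2 Q) (hQ : ∀ h : CR.Met 3, ContDiff ℝ ∞ h → Q h) (B : @DNB2.PartB2 ⟨0⟩)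
    (a' : ℝ) (ha' : 0 < a') : OnT fun g h _ _ _ _ _ _ _ => Pinched h 4 ∧ CurvLe g a' := by
  intro g h Γ Λ _ _ _ _ Φ Ψ f hg hh dg dh sg sh fg fh hf ⟨hN, hM⟩
  obtain ⟨g, rfl, rg⟩ := link_riem hg
  obtain ⟨h, rfl, rh⟩ := link_riem hh
  have qg := LV.all_qp (by norm_num) rg (link_deck dg) (link_flow rg fg)
  have qh := LV.all_qp (by norm_num) rh (link_deck dh) (link_flow rh fh)
  obtain ⟨ρ, F, cj, -⟩ := LV.lift2 3 g h Γ Λ Φ Ψ f le_rfl qg.rp qh.rp hf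
  obtain ⟨a, b, ha, hb, K⟩ := link_pin rh hN
  obtain ⟨b', K'⟩ := low_pinch jac frm act qg (sg.act 2) (link_curv rg hM)
  have s1 := link_sm qg sg
  have s2 := link_sm qh sh
  obtain ⟨c1, c2⟩ := B g h Γ Λ Φ Ψ ρ F ⟨s1.qp, s1.sm, s1.act⟩
    ⟨s2.qp, s2.sm, s2.act⟩ cj a b a' b' ha ha' hb K' K
  obtain ⟨G, hG⟩ := link_A2 jac frm act A hQ a ha g h Γ Λ Φ Ψ ρ F s1 s2
    cj (link_le0 rg K') (K.imp fun _ k => ⟨k.1, fun x u v => (k.2 x u v).1⟩) c1 c2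
  exact ⟨G, ρ, hG⟩

end Pool.Agent.MP_3ee8cb_gt.SL3
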