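import Pool.Agent.MP_3ee8cb_gt.SL3.Link2
import Pool.Agent.MP_3ee8cb_gt.SL3.Defs3
import Pool.Agent.MP_3ee8cb_gt.CZ.Spec

/-! The statement for a continuous conjugacy and an arbitrary source. -/

namespace Pool.Agent.MP_3ee8cb_gt.SL3

section

open D3 Set
open scoped RealInnerProductSpace

variable {m : MF} {Γ : Type} [Group Γ] [MulAction Γ V] {O : Γ → V → V ≃ₗᵢ[ℝ] V}

theorem neg_up (o : m.OK) (j : m.Jac) (A : Act m Γ O)
    (H : ∀ y a b, ⟪a, b⟫ ^ 2 < ‖a‖ ^ 2 * ‖b‖ ^ 2 → ⟪m.K y a b b, a⟫ < 0) :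
    ∃ lo, 0 < lo ∧ m.Up lo := by
  obtain ⟨K, cK, hK⟩ := A.cpt
  have c : Continuous fun q : V × V × V => -⟪m.K q.1 q.2.1 q.2.2 q.2.2, q.2.1⟫ :=
    ((j.cK.comp (f := fun q : V × V × V => (q.1, q.2.1, q.2.2, q.2.2)) (by fun_prop)).inner
      (by fun_prop)).neg
  have cl : IsClosed {q : V × V × V | ⟪q.2.1, q.2.2⟫ = 0} :=
    isClosed_eq (by fun_prop) continuous_const
  obtain ⟨C, C0, hC⟩ := ((cK.prod ((isCompact_sphere (0 : V) 1).prod
    (isCompact_sphere (0 : V) 1))).inter_right cl).exists_forall_le' c.continuousOn (a := 0)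
    fun q ⟨⟨_, h1, h2⟩, h3⟩ => neg_pos.2 (H _ _ _ (by
      rw [mem_sphere_zero_iff_norm] at h1 h2
      rw [show ⟪q.2.1, q.2.2⟫ = 0 from h3, h1, h2]
      norm_num))
  have u : ∀ y a b, ‖a‖ = 1 → ‖b‖ = 1 → ⟪a, b⟫ = 0 → C ≤ -⟪m.K y a b b, a⟫ :=
    fun y a b ha hb e => by
      obtain ⟨γ, hγ⟩ := hK y
      rw [← low_inv o j A γ]
      exact hC (γ • y, O γ y a, O γ y b) ⟨⟨hγ, by simpa using ha, by simpa using hb⟩,
        (LinearIsometryEquiv.inner_map_map _ _ _).trans e⟩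
  have v : ∀ y a b, ⟪a, b⟫ = 0 → C * (‖a‖ ^ 2 * ‖b‖ ^ 2) ≤ -⟪m.K y a b b, a⟫ :=
    fun y a b e => by
      obtain ⟨L, hL⟩ := j.lK y
      by_cases ha : a = 0
      · simp [ha]
      by_cases hb : b = 0
      · simp [hb, hL]
      have p := norm_pos_iff.2 ha
      have q := norm_pos_iff.2 hb
      have := u y (‖a‖⁻¹ • a) (‖b‖⁻¹ • b) (norm_smul_inv_norm ha) (norm_smul_inv_norm hb)
        (by rw [real_inner_smul_left, real_inner_smul_right, e, mul_zero, mul_zero])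
      simp only [hL, map_smul, smul_apply, real_inner_smul_left,
        real_inner_smul_right] at this ⊢
      have h2 := mul_le_mul_of_nonneg_right this (by positivity : 0 ≤ ‖a‖ ^ 2 * ‖b‖ ^ 2)
      refine le_of_le_of_eq h2 ?_
      field_simp
  refine ⟨C, C0, fun y a b => ?_⟩
  obtain ⟨L, hL⟩ := j.lK y
  by_cases hb : b = 0
  · simp [hb, hL]
  have q := norm_pos_iff.2 hb
  have h0 : L b b b = 0 := by
    have := j.aK y b b b
    rw [hL] at this
    linear_combination (norm := module) (1 / 2 : ℝ) • this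
  have h1 : ⟪L a b b, b⟫ = 0 := by
    have := j.sK y a b b b
    rw [hL, real_inner_comm] at this
    rw [real_inner_comm]
    linarith [real_inner_comm (L a b b) b]
  have := v y (a - (⟪a, b⟫ / ‖b‖ ^ 2) • b) b (by
    rw [inner_sub_left, real_inner_smul_left, real_inner_self_eq_norm_sq]
    field_simp
    ring)
  rw [norm_sub_sq_real] at this
  simp only [hL, map_sub, map_smul, sub_apply, h0, smul_zero, sub_zero,
    smul_apply, inner_sub_right, real_inner_smul_right, h1, mul_zero,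
    norm_smul, mul_pow, Real.norm_eq_abs, sq_abs] at this ⊢
  refine (le_of_eq ?_).trans this
  field_simp
  ring

theorem neg_le (jac : SJAC) (frm : SFRM) (act : SACT) {h : CR.Met 3}
    {Ψ : ℝ → CR.UT h → CR.UT h} (q : LV.QP h Γ Ψ) (d : D2 Γ) {C : TB.Chr 3} (c : TB.IsChr h C)
    (k : ∀ x u v, h x u v ^ 2 < h x u u * h x v v → h x (TB.Rm C x u v v) u < 0) :
    ∃ a, 0 < a ∧ TB.CurvLe h a := by
  obtain ⟨m, o, l⟩ := frm h C Γ Ψ q c
  obtain ⟨O, A⟩ := act h C Γ Ψ q c m o l d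
  obtain ⟨lo, l0, H⟩ := neg_up o (jac m o) A fun y a b e => by
    rw [(l.sec o y a b).1]
    exact k _ _ _ (by linarith [(l.sec o y a b).2])
  refine ⟨√lo, Real.sqrt_pos.2 l0, C, c, fun x u v => ?_⟩
  have := H x (m.S x u) (m.S x v)
  rw [(l.sec o x _ _).1, ← (l.sec o x _ _).2, o.RS, o.RS] at this
  rw [Real.sq_sqrt l0.le]
  linarith

end

open Pool.Agent.MP_3ee8cb_gt.SL

theorem chr_ex {n : ℕ} {g : CR.Met n} (hg : CR.Riem g) : ∃ C, TB.IsChr g C := by
  obtain ⟨G, hG⟩ := LV.chr n g hg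
  refine ⟨G, fun x u v w => ?_⟩
  rw [hG.compat, hG.compat, hG.compat, hG.symm x v u, hG.symm x u w, hG.symm x v w,
    hg.symm x (G x w u) v, hg.symm x u (G x w v)]
  ring

theorem link_neg {n : ℕ} {h : CR.Met n} (hh : CR.Riem h) (H : Negative (pl h)) :
    ∃ C, TB.IsChr h C ∧ ∀ x u v,
      h x u v ^ 2 < h x u u * h x v v → h x (TB.Rm C x u v v) u < 0 := by
  obtain ⟨C, c, K⟩ := H
  obtain ⟨C', c'⟩ := chr_ex hh
  have e : C = fun x u v => C' x u v := by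
    funext x u v
    refine TB.gam_inj hh x ?_
    ext1 w
    have e1 := c x u v w
    rw [link_dR hh, link_dR hh, link_dR hh, ← c' x u v w] at e1
    simp only [pl] at e1
    linarith
  subst e
  refine ⟨C', c', fun x u v e => ?_⟩
  have d : DifferentiableAt ℝ C' x :=
    ((TB.gam n h C' hh c').smooth.differentiable (by norm_num)).differentiableAt
  have := K x u v e
  unfold Rm dE at this
  rw [TB.gam_fderiv_apply d, TB.gam_fderiv_apply d] at this
  exact this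

theorem finZ (jac : D3.SJAC) (frm : D3.SFRM) (act : D3.SACT) (Z : CZ.MainZ) :
    OnT fun _ h _ _ _ _ _ _ _ => Negative h := by
  intro g h Γ Λ _ _ _ _ Φ Ψ f hg hh dg dh sg sh fg fh hf hN
  obtain ⟨g, rfl, rg⟩ := link_riem hg
  obtain ⟨h, rfl, rh⟩ := link_riem hh
  have qg := LV.all_qp (by norm_num) rg (link_deck dg) (link_flow rg fg)
  have qh := LV.all_qp (by norm_num) rh (link_deck dh) (link_flow rh fh)
  obtain ⟨ρ, F, cj, -⟩ := LV.lift2 3 g h Γ Λ Φ Ψ f le_rfl qg.rp qh.rp hf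
  obtain ⟨C, c⟩ := chr_ex rg
  obtain ⟨C₁, c₁, k₁⟩ := link_neg rh hN
  obtain ⟨a, ha, k⟩ := neg_le jac frm act qh (sh.act 2) c₁ k₁
  obtain ⟨C', hi, c', K⟩ := low_pin jac frm act qh (sh.act 2) k
  obtain ⟨G, hG⟩ := Z g h C C' Γ Λ Φ Ψ ρ F qg qh c c' (sg.act 2) (sh.act 2) cj a hi ha
    (contDiff_infty.1 (link_sm qh sh).sm 3) K
  exact ⟨G, ρ, hG⟩

end Pool.Agent.MP_3ee8cb_gt.SL3
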