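import Pool.Agent.MP_3ee8cb_gt.SL3.Link2
import Pool.Agent.MP_3ee8cb_gt.D3NP.AllO
import Pool.Agent.MP_3ee8cb_gt.D3NP.FibK
import Pool.Agent.MP_3ee8cb_gt.D3NP.XSGN
import Pool.Agent.MP_3ee8cb_gt.D3NP.XBIG
import Pool.Agent.MP_3ee8cb_gt.D3NP.XG1
import Pool.Agent.MP_3ee8cb_gt.D3NP.XG2
import Pool.Agent.MP_3ee8cb_gt.D3NP.XG3b
import Pool.Agent.MP_3ee8cb_gt.D3NP.XG4
import Pool.Agent.MP_3ee8cb_gt.D3NP.XG5
import Pool.Agent.MP_3ee8cb_gt.D3NB.End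

/-! Rigidity without pinching, all blocks together. -/

namespace Pool.Agent.MP_3ee8cb_gt.SL3

open D3NP in
theorem fib0 : SFIB0 :=
  D3NB.fib0 xSGN xBIG xG1 xG2 xG3b xG4 xG5 xDV xBOR kRAY kPOS kCUT kRAD

theorem mainNP : D3NP.MainA2 fun h => ContDiff ℝ 3 h := D3NP.allA2 (D3NB.fib_of_fib0 fib0)

theorem allA2 (a : ℝ) (ha : 0 < a) :
    OnT fun g h _ _ _ _ _ _ f => SL.CurvLe h a ∧ SL.CurvLe g 0 ∧ C1D f :=
  finA2 D3.sJAC D3NP.sFRM2 D3.sACT mainNP (fun _ s => contDiff_infty.1 s 3) a ha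

theorem allB2 (B : ∀ a, 0 < a → D3IN.PartB a) :
    OnT fun g h _ _ _ _ _ _ _ => Pinched h 4 ∧ Pinched g 4 :=
  finB2 D3.sJAC D3NP.sFRM2 D3.sACT mainNP (fun _ s => contDiff_infty.1 s 3) B

end Pool.Agent.MP_3ee8cb_gt.SL3
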